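import Pool.Agent.H15AP.Gen

/-!
The explicit family: blocks of length 20.
-/

set_option autoImplicit false

namespace Pool.Agent.H15AP

open Finset

/-- `11111000000011100101` -/
def bP (i : ℕ) : ℤ :=
  ([1, 1, 1, 1, 1, -1, -1, -1, -1, -1, -1, -1, 1, 1, 1, -1, -1, 1, -1, 1] : List ℤ).getD i 0
/-- `10100111000000011111` -/
def bQ (i : ℕ) : ℤ :=
  ([1, -1, 1, -1, -1, 1, 1, 1, -1, -1, -1, -1, -1, -1, -1, 1, 1, 1, 1, 1] : List ℤ).getD i 0
/-- `10111100000101110001` -/
def bC (i : ℕ) : ℤ :=
  ([1, -1, 1, 1, 1, 1, -1, -1, -1, -1, -1, 1, -1, 1, 1, 1, -1, -1, -1, 1] : List ℤ).getD i 0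

variable (k f : ℕ)

/-- block number `j` -/
def ty (j : ℕ) : ℕ → ℤ :=
  if j < 20 * k then bP else if j < 20 * k + 10 * f then bC else if j < 40 * k then bP else bQ

theorem ty_cases (j : ℕ) : ty k f j = bP ∨ ty k f j = bC ∨ ty k f j = bQ := by
  unfold ty
  split_ifs <;> simp

/-- first half -/
def tau (x : ℕ) : ℤ := ty k f (x / 20) (x % 20)

theorem tau_block (j r : ℕ) (hr : r < 20) : tau k f (20 * j + r) = ty k f j r := by
  unfold tau
  rw [show (20 * j + r) / 20 = j by omega, show (20 * j + r) % 20 = r by omega]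

theorem pre_ty (j : ℕ) : pre (ty k f j) 20 = 0 := by
  rcases ty_cases k f j with h | h | h <;> rw [h] <;> decide +kernel

theorem pre_tau (j r : ℕ) (hr : r ≤ 20) : pre (tau k f) (20 * j + r) = pre (ty k f j) r := by
  have step : ∀ j r : ℕ, r ≤ 20 → pre (tau k f) (20 * j + r) =
      pre (tau k f) (20 * j) + pre (ty k f j) r := by
    intro j r hr
    unfold pre
    rw [Finset.sum_range_add]
    congr 1
    refine Finset.sum_congr rfl fun y hy => ?_
    rw [Finset.mem_range] at hy
    exact tau_block k f j y (by omega)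
  have h0 : ∀ j : ℕ, pre (tau k f) (20 * j) = 0 := by
    intro j
    induction j with
    | zero => simp [pre]
    | succ j ih => rw [Nat.mul_succ, step j 20 le_rfl, ih, pre_ty, add_zero]
  rw [step j r hr, h0, zero_add]

/-- the sequence on `[0, 3200 k)` -/
def sq (x : ℕ) : ℤ := if x < 1600 * k then tau k f x else -tau k f (3200 * k - 1 - x)

theorem sq_lt {x : ℕ} (hx : x < 1600 * k) : sq k f x = tau k f x := if_pos hx

theorem sq_ge {x : ℕ} (hx : 1600 * k ≤ x) : sq k f x = -tau k f (3200 * k - 1 - x) :=
  if_neg (by omega)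

theorem tau_sq (x : ℕ) : tau k f x * tau k f x = 1 := by
  have key : ∀ r : ℕ, r < 20 → bP r * bP r = 1 ∧ bC r * bC r = 1 ∧ bQ r * bQ r = 1 := by
    decide +kernel
  unfold tau
  have hr := key (x % 20) (Nat.mod_lt _ (by norm_num))
  rcases ty_cases k f (x / 20) with h | h | h <;> rw [h]
  · exact hr.1
  · exact hr.2.1
  · exact hr.2.2

theorem sq_sq (x : ℕ) : sq k f x * sq k f x = 1 := by
  unfold sq
  split_ifs
  · exact tau_sq k f x
  · rw [neg_mul_neg]
    exact tau_sq k f _

theorem sq_anti : ∀ i < 2 * (1600 * k), sq k f (2 * (1600 * k) - 1 - i) = -sq k f i := by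
  intro i hi
  rcases lt_or_ge i (1600 * k) with h | h
  · rw [sq_lt k f h, sq_ge k f (by omega)]
    congr 2
    omega
  · rw [sq_ge k f h, sq_lt k f (by omega), neg_neg]
    congr 1
    omega

theorem pre_sq {x : ℕ} (hx : x ≤ 1600 * k) : pre (sq k f) x = pre (tau k f) x := by
  unfold pre
  refine Finset.sum_congr rfl fun y hy => ?_
  rw [Finset.mem_range] at hy
  exact sq_lt k f (by omega)

/-- sums over all blocks -/
theorem sum_ty (hf : 10 * f ≤ 20 * k) (G : (ℕ → ℤ) → ℤ) :
    ∑ j ∈ range (80 * k), G (ty k f j) =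
      (40 * (k : ℤ) - 10 * f) * G bP + 10 * f * G bC + 40 * k * G bQ := by
  have h1 : ∑ j ∈ range (20 * k), G (ty k f j) = 20 * k * G bP := by
    rw [Finset.sum_congr rfl fun j hj => by
      rw [show ty k f j = bP from if_pos (Finset.mem_range.1 hj)]]
    simp
  have h2 : ∑ j ∈ range (10 * f), G (ty k f (20 * k + j)) = 10 * f * G bC := by
    rw [Finset.sum_congr rfl fun j hj => by
      rw [show ty k f (20 * k + j) = bC from by
        have := Finset.mem_range.1 hj
        unfold ty
        rw [if_neg (by omega), if_pos (by omega)]]]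
    simp
  have h3 : ∑ j ∈ range (20 * k - 10 * f), G (ty k f (20 * k + 10 * f + j)) =
      (20 * k - 10 * f) * G bP := by
    rw [Finset.sum_congr rfl fun j hj => by
      rw [show ty k f (20 * k + 10 * f + j) = bP from by
        have := Finset.mem_range.1 hj
        unfold ty
        rw [if_neg (by omega), if_neg (by omega), if_pos (by omega)]]]
    simp only [Finset.sum_const, Finset.card_range, nsmul_eq_mul]
    rw [Nat.cast_sub hf]
    push_cast
    ring
  have h4 : ∑ j ∈ range (40 * k), G (ty k f (40 * k + j)) = 40 * k * G bQ := by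
    rw [Finset.sum_congr rfl fun j hj => by
      rw [show ty k f (40 * k + j) = bQ from by
        unfold ty
        rw [if_neg (by omega), if_neg (by omega), if_neg (by omega)]]]
    simp
  have e1 : ∑ j ∈ range (80 * k), G (ty k f j) =
      ∑ j ∈ range (20 * k + 10 * f + (20 * k - 10 * f)), G (ty k f j) +
        ∑ j ∈ range (40 * k), G (ty k f (40 * k + j)) := by
    rw [show 80 * k = 40 * k + 40 * k by ring, Finset.sum_range_add,
      show 20 * k + 10 * f + (20 * k - 10 * f) = 40 * k by omega]
  rw [e1, Finset.sum_range_add, Finset.sum_range_add, h1, h2, h3, h4]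
  ring

/-- the sum of the even prefix sums of a block -/
def evn (B : ℕ → ℤ) : ℤ := ∑ r ∈ range 10, pre B (2 * r)

theorem cond1 (hf : 10 * f ≤ 20 * k) : ∑ e ∈ Ico 1 (1600 * k), pre (sq k f) (2 * e) = 0 := by
  rcases Nat.eq_zero_or_pos k with hk | hk
  · subst hk
    simp
  have h0 : ∑ e ∈ range (1600 * k), pre (sq k f) (2 * e) =
      ∑ e ∈ Ico 1 (1600 * k), pre (sq k f) (2 * e) := by
    rw [Finset.range_eq_Ico, Finset.sum_eq_sum_Ico_succ_bot (by omega)]
    simp [pre]
  rw [← h0, show 1600 * k = 800 * k + 800 * k by ring, Finset.sum_range_add]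
  have h1 : ∑ e ∈ range (800 * k), pre (sq k f) (2 * (800 * k + e)) =
      ∑ e ∈ range (800 * k), pre (sq k f) (2 * e) := by
    have e1 : ∑ e ∈ range (800 * k), pre (sq k f) (2 * (800 * k + e)) =
        ∑ e ∈ range (800 * k), pre (sq k f) (2 * (e + 1)) := by
      rw [← Finset.sum_range_reflect (fun e => pre (sq k f) (2 * (e + 1))) (800 * k)]
      refine Finset.sum_congr rfl fun e he => ?_
      rw [Finset.mem_range] at he
      rw [← pre_symm (sq_anti k f) (2 * (800 * k + e)) (by omega)]
      congr 1
      omega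
    rw [e1]
    have e2 := Finset.sum_range_succ' (fun e => pre (sq k f) (2 * e)) (800 * k)
    have e3 := Finset.sum_range_succ (fun e => pre (sq k f) (2 * e)) (800 * k)
    have e4 : pre (sq k f) (2 * (800 * k)) = 0 := by
      rw [pre_sq k f (by omega), show 2 * (800 * k) = 20 * (80 * k) + 0 by ring,
        pre_tau k f _ _ (by norm_num), pre_zero]
    have e5 : pre (sq k f) (2 * 0) = 0 := pre_zero _
    rw [e4] at e3
    rw [e5] at e2
    linarith
  have h2 : ∑ e ∈ range (800 * k), pre (sq k f) (2 * e) = 0 := by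
    rw [show 800 * k = 10 * (80 * k) by ring, sum_mul]
    have e1 : ∀ j ∈ range (80 * k), ∑ r ∈ range 10, pre (sq k f) (2 * (10 * j + r)) =
        evn (ty k f j) := by
      intro j hj
      unfold evn
      refine Finset.sum_congr rfl fun r hr => ?_
      rw [Finset.mem_range] at hj hr
      rw [pre_sq k f (by omega), show 2 * (10 * j + r) = 20 * j + 2 * r by ring,
        pre_tau k f _ _ (by omega)]
    rw [Finset.sum_congr rfl e1, sum_ty k f hf]
    have p1 : evn bC = evn bP := by decide +kernel
    have p2 : evn bQ = -evn bP := by decide +kernel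
    rw [p1, p2]
    ring
  rw [h1, h2, add_zero]

/-- the alternating sum of a block -/
def alt (B : ℕ → ℤ) : ℤ := ∑ r ∈ range 10, (B (2 * r) - B (2 * r + 1))

theorem even_sum (hf : 10 * f ≤ 20 * k) :
    ∑ i ∈ range (1600 * k), sq k f (2 * i) = -40 * f := by
  rw [show 1600 * k = 800 * k + 800 * k by ring, Finset.sum_range_add]
  have h1 : ∑ e ∈ range (800 * k), sq k f (2 * (800 * k + e)) =
      ∑ e ∈ range (800 * k), -tau k f (2 * e + 1) := by
    rw [← Finset.sum_range_reflect (fun e => -tau k f (2 * e + 1)) (800 * k)]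
    refine Finset.sum_congr rfl fun e he => ?_
    rw [Finset.mem_range] at he
    rw [sq_ge k f (by omega)]
    congr 2
    omega
  have h2 : ∑ e ∈ range (800 * k), sq k f (2 * e) = ∑ e ∈ range (800 * k), tau k f (2 * e) := by
    refine Finset.sum_congr rfl fun e he => ?_
    rw [Finset.mem_range] at he
    exact sq_lt k f (by omega)
  rw [h1, h2, ← Finset.sum_add_distrib, show 800 * k = 10 * (80 * k) by ring, sum_mul]
  have e1 : ∀ j ∈ range (80 * k), ∑ r ∈ range 10,
      (tau k f (2 * (10 * j + r)) + -tau k f (2 * (10 * j + r) + 1)) = alt (ty k f j) := by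
    intro j hj
    unfold alt
    refine Finset.sum_congr rfl fun r hr => ?_
    rw [Finset.mem_range] at hj hr
    rw [show 2 * (10 * j + r) = 20 * j + 2 * r by ring, add_assoc, tau_block k f _ _ (by omega),
      tau_block k f _ _ (by omega)]
    ring
  rw [Finset.sum_congr rfl e1, sum_ty k f hf]
  have p1 : alt bC = alt bP - 4 := by decide +kernel
  have p2 : alt bQ = -alt bP := by decide +kernel
  rw [p1, p2]
  ring

theorem cond2 (hf : 10 * f ≤ 20 * k) (hk : k = f ^ 2) :
    (∑ i ∈ range (1600 * k), sq k f (2 * i)) ^ 2 = ((1600 * k : ℕ) : ℤ) := by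
  rw [even_sum k f hf, hk]
  push_cast
  ring

theorem cond2' (hf : 10 * f ≤ 20 * k) (hk : k = f ^ 2) :
    (∑ i ∈ range (1600 * k), sq k f (2 * i + 1)) ^ 2 = ((1600 * k : ℕ) : ℤ) := by
  have h1 : pre (sq k f) (2 * (1600 * k)) = 0 := pre_top (sq_anti k f)
  unfold pre at h1
  rw [sum_two_mul, Finset.sum_add_distrib, even_sum k f hf] at h1
  have h2 : ∑ i ∈ range (1600 * k), sq k f (2 * i + 1) = 40 * f := by linarith
  rw [h2, hk]
  push_cast
  ring

/-- the local term -/
def loc (X Z : ℕ → ℤ) : ℤ :=
  ∑ r ∈ range 10, (X r + bQ (19 - r)) * pre Z (2 * r + 1) +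
    ∑ r ∈ range 10, (X (10 + r) + bQ (9 - r)) * pre Z (2 * r + 1)

theorem ty_pair (hf : 10 * f ≤ 20 * k) (i : ℕ) : ty k f (2 * i + 1) = ty k f (2 * i) := by
  unfold ty
  split_ifs <;> first | rfl | omega

theorem cond3 (hf : 10 * f ≤ 20 * k) :
    ∑ c ∈ range (1600 * k), sq k f c * pre (sq k f) (2 * c + 1) = ((1600 * k : ℕ) : ℤ) := by
  rw [show 1600 * k = 800 * k + 800 * k by ring, Finset.sum_range_add]
  have h1 : ∑ c ∈ range (800 * k), sq k f (800 * k + c) * pre (sq k f) (2 * (800 * k + c) + 1) =
      ∑ c ∈ range (800 * k), tau k f (1600 * k - 1 - c) * pre (sq k f) (2 * c + 1) := by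
    rw [← Finset.sum_range_reflect
      (fun c => tau k f (1600 * k - 1 - c) * pre (sq k f) (2 * c + 1)) (800 * k)]
    refine Finset.sum_congr rfl fun c hc => ?_
    rw [Finset.mem_range] at hc
    rw [sq_lt k f (by omega), ← pre_symm (sq_anti k f) (2 * (800 * k + c) + 1) (by omega)]
    congr 2 <;> omega
  have h2 : ∑ c ∈ range (800 * k), sq k f c * pre (sq k f) (2 * c + 1) =
      ∑ c ∈ range (800 * k), tau k f c * pre (sq k f) (2 * c + 1) := by
    refine Finset.sum_congr rfl fun c hc => ?_
    rw [Finset.mem_range] at hc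
    rw [sq_lt k f (by omega)]
  rw [h1, h2, ← Finset.sum_add_distrib, show 800 * k = 20 * (40 * k) by ring, sum_mul]
  have e1 : ∀ i ∈ range (40 * k), ∑ r ∈ range 20,
      (tau k f (20 * i + r) * pre (sq k f) (2 * (20 * i + r) + 1) +
        tau k f (1600 * k - 1 - (20 * i + r)) * pre (sq k f) (2 * (20 * i + r) + 1)) =
      loc (ty k f i) (ty k f (2 * i)) := by
    intro i hi
    rw [Finset.mem_range] at hi
    have hq : ty k f (80 * k - 1 - i) = bQ := by
      unfold ty
      rw [if_neg (by omega), if_neg (by omega), if_neg (by omega)]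
    rw [show (20 : ℕ) = 10 + 10 by norm_num, Finset.sum_range_add]
    unfold loc
    congr 1
    · refine Finset.sum_congr rfl fun r hr => ?_
      rw [Finset.mem_range] at hr
      rw [← add_mul]
      congr 1
      · rw [← hq, ← tau_block k f i r (by omega), ← tau_block k f (80 * k - 1 - i) (19 - r) (by omega)]
        congr 2
        omega
      · rw [pre_sq k f (by omega), ← pre_tau k f (2 * i) (2 * r + 1) (by omega)]
        congr 1
        omega
    · refine Finset.sum_congr rfl fun r hr => ?_
      rw [Finset.mem_range] at hr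
      rw [← add_mul]
      congr 1
      · rw [← hq, ← tau_block k f i (10 + r) (by omega),
          ← tau_block k f (80 * k - 1 - i) (9 - r) (by omega)]
        congr 2 <;> omega
      · rw [pre_sq k f (by omega), ← ty_pair k f hf i,
          ← pre_tau k f (2 * i + 1) (2 * r + 1) (by omega)]
        congr 1
        omega
  rw [Finset.sum_congr rfl e1]
  have s1 : ∑ i ∈ range (10 * k), loc (ty k f i) (ty k f (2 * i)) = 10 * k * loc bP bP := by
    rw [Finset.sum_congr rfl fun i hi => by
      have := Finset.mem_range.1 hi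
      rw [show ty k f i = bP from if_pos (by omega),
        show ty k f (2 * i) = bP from if_pos (by omega)]]
    simp
  have s2 : ∑ i ∈ range (5 * f), loc (ty k f (10 * k + i)) (ty k f (2 * (10 * k + i))) =
      5 * f * loc bP bC := by
    rw [Finset.sum_congr rfl fun i hi => by
      have := Finset.mem_range.1 hi
      rw [show ty k f (10 * k + i) = bP from if_pos (by omega),
        show ty k f (2 * (10 * k + i)) = bC from by
          unfold ty
          rw [if_neg (by omega), if_pos (by omega)]]]
    simp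
  have s3 : ∑ i ∈ range (10 * k - 5 * f),
      loc (ty k f (10 * k + 5 * f + i)) (ty k f (2 * (10 * k + 5 * f + i))) =
      (10 * k - 5 * f) * loc bP bP := by
    rw [Finset.sum_congr rfl fun i hi => by
      have := Finset.mem_range.1 hi
      rw [show ty k f (10 * k + 5 * f + i) = bP from if_pos (by omega),
        show ty k f (2 * (10 * k + 5 * f + i)) = bP from by
          unfold ty
          rw [if_neg (by omega), if_neg (by omega), if_pos (by omega)]]]
    simp only [Finset.sum_const, Finset.card_range, nsmul_eq_mul]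
    rw [Nat.cast_sub (by omega)]
    push_cast
    ring
  have s4 : ∑ i ∈ range (10 * f), loc (ty k f (20 * k + i)) (ty k f (2 * (20 * k + i))) =
      10 * f * loc bC bQ := by
    rw [Finset.sum_congr rfl fun i hi => by
      have := Finset.mem_range.1 hi
      rw [show ty k f (20 * k + i) = bC from by
          unfold ty
          rw [if_neg (by omega), if_pos (by omega)],
        show ty k f (2 * (20 * k + i)) = bQ from by
          unfold ty
          rw [if_neg (by omega), if_neg (by omega), if_neg (by omega)]]]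
    simp
  have s5 : ∑ i ∈ range (20 * k - 10 * f),
      loc (ty k f (20 * k + 10 * f + i)) (ty k f (2 * (20 * k + 10 * f + i))) =
      (20 * k - 10 * f) * loc bP bQ := by
    rw [Finset.sum_congr rfl fun i hi => by
      have := Finset.mem_range.1 hi
      rw [show ty k f (20 * k + 10 * f + i) = bP from by
          unfold ty
          rw [if_neg (by omega), if_neg (by omega), if_pos (by omega)],
        show ty k f (2 * (20 * k + 10 * f + i)) = bQ from by
          unfold ty
          rw [if_neg (by omega), if_neg (by omega), if_neg (by omega)]]]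
    simp only [Finset.sum_const, Finset.card_range, nsmul_eq_mul]
    rw [Nat.cast_sub (by omega)]
    push_cast
    ring
  have split1 : ∑ i ∈ range (40 * k), loc (ty k f i) (ty k f (2 * i)) =
      ∑ i ∈ range (10 * k + 5 * f + (10 * k - 5 * f)), loc (ty k f i) (ty k f (2 * i)) +
      (∑ i ∈ range (10 * f), loc (ty k f (20 * k + i)) (ty k f (2 * (20 * k + i))) +
        ∑ i ∈ range (20 * k - 10 * f),
          loc (ty k f (20 * k + 10 * f + i)) (ty k f (2 * (20 * k + 10 * f + i)))) := by
    rw [show 10 * k + 5 * f + (10 * k - 5 * f) = 20 * k by omega]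
    conv_lhs => rw [show 40 * k = 20 * k + (10 * f + (20 * k - 10 * f)) by omega]
    rw [Finset.sum_range_add, Finset.sum_range_add]
    simp only [← add_assoc]
  rw [split1, s4, s5, Finset.sum_range_add, Finset.sum_range_add, s1, s2, s3]
  have p1 : loc bP bQ = 80 - loc bP bP := by decide +kernel
  have p2 : loc bP bC = loc bP bP - 2 * (loc bC bQ - loc bP bQ) := by decide +kernel
  rw [p2, p1]
  push_cast
  ring

end Pool.Agent.H15AP
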