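import Mathlib

/-!
Sums over the three-term progressions `(a, a + d, a + 2 d)` in `[0, 2 h)` for a sequence `s` with
values `±1` and `s (2 h - 1 - i) = - s i`.
-/

set_option autoImplicit false

namespace Pool.Agent.H15AP

open Finset

/-- prefix sums -/
def pre (s : ℕ → ℤ) (x : ℕ) : ℤ := ∑ y ∈ range x, s y

/-- sum over all progressions `(a, a + d, a + 2 d)` in `[0, 2 h)` -/
def T (h : ℕ) (F : ℕ → ℕ → ℤ) : ℤ := ∑ d ∈ Ico 1 h, ∑ a ∈ range (2 * h - 2 * d), F a d

theorem pre_succ (s : ℕ → ℤ) (x : ℕ) : pre s (x + 1) = pre s x + s x := by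
  simp [pre, Finset.sum_range_succ]

theorem pre_zero (s : ℕ → ℤ) : pre s 0 = 0 := by simp [pre]

theorem T_congr {h : ℕ} {F G : ℕ → ℕ → ℤ}
    (H : ∀ d a : ℕ, 1 ≤ d → d < h → a + 2 * d < 2 * h → F a d = G a d) : T h F = T h G := by
  unfold T
  refine Finset.sum_congr rfl fun d hd => Finset.sum_congr rfl fun a ha => ?_
  rw [Finset.mem_Ico] at hd
  rw [Finset.mem_range] at ha
  exact H d a hd.1 hd.2 (by omega)

theorem T_refl (h : ℕ) (F : ℕ → ℕ → ℤ) :
    T h F = T h (fun a d => F (2 * h - 2 * d - 1 - a) d) := by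
  unfold T
  refine Finset.sum_congr rfl fun d _ => ?_
  exact (Finset.sum_range_reflect (fun a => F a d) (2 * h - 2 * d)).symm

theorem T_neg (h : ℕ) (F : ℕ → ℕ → ℤ) : T h (fun a d => -F a d) = -T h F := by
  simp [T, Finset.sum_neg_distrib]

theorem T_add (h : ℕ) (F G : ℕ → ℕ → ℤ) : T h (fun a d => F a d + G a d) = T h F + T h G := by
  simp [T, Finset.sum_add_distrib]

theorem T_mul (h : ℕ) (c : ℤ) (F : ℕ → ℕ → ℤ) : T h (fun a d => c * F a d) = c * T h F := by
  simp [T, Finset.mul_sum]

theorem sum_two_mul (f : ℕ → ℤ) (m : ℕ) :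
    ∑ a ∈ range (2 * m), f a = ∑ i ∈ range m, (f (2 * i) + f (2 * i + 1)) := by
  induction m with
  | zero => simp
  | succ m ih =>
    rw [Finset.sum_range_succ, ← ih, show 2 * (m + 1) = 2 * m + 1 + 1 by ring,
      Finset.sum_range_succ, Finset.sum_range_succ]
    ring

theorem sum_mul (f : ℕ → ℤ) (p m : ℕ) :
    ∑ a ∈ range (p * m), f a = ∑ j ∈ range m, ∑ r ∈ range p, f (p * j + r) := by
  induction m with
  | zero => simp
  | succ m ih =>
    rw [Finset.sum_range_succ, ← ih, Nat.mul_succ, Finset.sum_range_add]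

theorem sum_sub_refl (f : ℕ → ℤ) (h : ℕ) :
    ∑ d ∈ Ico 1 h, f (h - d) = ∑ d ∈ Ico 1 h, f d := by
  refine Finset.sum_nbij' (fun d => h - d) (fun d => h - d) ?_ ?_ ?_ ?_ ?_
  · intro d hd
    simp only [Finset.mem_Ico] at hd ⊢
    omega
  · intro d hd
    simp only [Finset.mem_Ico] at hd ⊢
    omega
  · intro d hd
    simp only [Finset.mem_Ico] at hd
    show h - (h - d) = d
    omega
  · intro d hd
    simp only [Finset.mem_Ico] at hd
    show h - (h - d) = d
    omega
  · intro d hd
    rfl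

theorem sq_sum (e : ℕ → ℤ) (h : ℕ) :
    2 * ∑ d ∈ Ico 1 h, ∑ i ∈ range (h - d), e i * e (i + d) + ∑ i ∈ range h, e i * e i =
      (∑ i ∈ range h, e i) ^ 2 := by
  induction h with
  | zero => simp
  | succ h ih =>
    have h1 : ∑ d ∈ Ico 1 (h + 1), ∑ i ∈ range (h + 1 - d), e i * e (i + d) =
        ∑ d ∈ Ico 1 (h + 1), (∑ i ∈ range (h - d), e i * e (i + d)) +
          ∑ d ∈ Ico 1 (h + 1), e (h - d) * e h := by
      rw [← Finset.sum_add_distrib]
      refine Finset.sum_congr rfl fun d hd => ?_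
      rw [Finset.mem_Ico] at hd
      rw [show h + 1 - d = (h - d) + 1 by omega, Finset.sum_range_succ,
        show h - d + d = h by omega]
    have h2 : ∑ d ∈ Ico 1 (h + 1), (∑ i ∈ range (h - d), e i * e (i + d)) =
        ∑ d ∈ Ico 1 h, (∑ i ∈ range (h - d), e i * e (i + d)) := by
      rcases Nat.eq_zero_or_pos h with h0 | h0
      · subst h0
        simp
      · rw [Finset.sum_Ico_succ_top h0]
        simp
    have h3 : ∑ d ∈ Ico 1 (h + 1), e (h - d) * e h = (∑ i ∈ range h, e i) * e h := by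
      rw [← Finset.sum_mul]
      congr 1
      rw [Finset.sum_Ico_eq_sum_range, show h + 1 - 1 = h by omega]
      rw [← Finset.sum_range_reflect e h]
      refine Finset.sum_congr rfl fun i hi => ?_
      congr 1
      omega
    rw [h1, h2, h3, Finset.sum_range_succ, Finset.sum_range_succ]
    linear_combination ih

theorem sum_pre (s : ℕ → ℤ) (N : ℕ) :
    2 * ∑ b ∈ range N, s b * pre s b + ∑ b ∈ range N, s b * s b = pre s N ^ 2 := by
  induction N with
  | zero => simp [pre]
  | succ N ih =>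
    rw [Finset.sum_range_succ, Finset.sum_range_succ, pre_succ]
    linear_combination ih

theorem sum_back (s : ℕ → ℤ) (b k : ℕ) (hk : k ≤ b) :
    ∑ d ∈ Ico 1 (k + 1), s (b - d) = pre s b - pre s (b - k) := by
  induction k with
  | zero => simp
  | succ k ih =>
    rw [Finset.sum_Ico_succ_top (by omega), ih (by omega)]
    have : pre s (b - k) = pre s (b - (k + 1)) + s (b - (k + 1)) := by
      rw [← pre_succ]
      congr 1
      omega
    rw [this]
    ring

variable {h : ℕ} {s : ℕ → ℤ}

theorem pre_top (ha : ∀ i < 2 * h, s (2 * h - 1 - i) = -s i) : pre s (2 * h) = 0 := by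
  have h1 : pre s (2 * h) = -pre s (2 * h) := by
    unfold pre
    rw [← Finset.sum_neg_distrib]
    rw [← Finset.sum_range_reflect s (2 * h)]
    exact Finset.sum_congr rfl fun i hi => ha i (Finset.mem_range.1 hi)
  linarith

theorem pre_symm (ha : ∀ i < 2 * h, s (2 * h - 1 - i) = -s i) (x : ℕ) (hx : x ≤ 2 * h) :
    pre s (2 * h - x) = pre s x := by
  induction x with
  | zero => rw [Nat.sub_zero, pre_top ha, pre_zero]
  | succ x ih =>
    have h1 := ih (by omega)
    have h2 : pre s (2 * h - x) = pre s (2 * h - (x + 1)) + s (2 * h - (x + 1)) := by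
      rw [← pre_succ]
      congr 1
      omega
    have h3 := ha x (by omega)
    rw [show 2 * h - 1 - x = 2 * h - (x + 1) by omega] at h3
    rw [pre_succ]
    linarith

/-- the sum of `s a s (a + d)` -/
theorem T12 (ha : ∀ i < 2 * h, s (2 * h - 1 - i) = -s i) (hs : ∀ i < 2 * h, s i * s i = 1)
    (hc : ∑ c ∈ range h, s c * pre s (2 * c + 1) = h) : T h (fun a d => s a * s (a + d)) = 0 := by
  have h1 : T h (fun a d => s a * s (a + d)) =
      ∑ d ∈ Ico 1 h, ∑ b ∈ Ico d (2 * h - d), s (b - d) * s b := by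
    unfold T
    refine Finset.sum_congr rfl fun d hd => ?_
    rw [Finset.sum_Ico_eq_sum_range, show 2 * h - d - d = 2 * h - 2 * d by omega]
    refine Finset.sum_congr rfl fun a _ => ?_
    rw [show d + a - d = a by omega, add_comm d a]
  have h2 : ∑ d ∈ Ico 1 h, ∑ b ∈ Ico d (2 * h - d), s (b - d) * s b =
      ∑ b ∈ range (2 * h), ∑ d ∈ Ico 1 (min b (2 * h - 1 - b) + 1), s (b - d) * s b := by
    refine Finset.sum_comm' ?_
    intro d b
    simp only [Finset.mem_Ico, Finset.mem_range]
    omega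
  have h3 : ∑ b ∈ range (2 * h), ∑ d ∈ Ico 1 (min b (2 * h - 1 - b) + 1), s (b - d) * s b =
      ∑ b ∈ range (2 * h), s b * (pre s b - pre s (b - min b (2 * h - 1 - b))) := by
    refine Finset.sum_congr rfl fun b _ => ?_
    rw [← Finset.sum_mul, sum_back s b _ (min_le_left _ _), mul_comm]
  have h4 : ∑ b ∈ range (2 * h), s b * pre s (b - min b (2 * h - 1 - b)) =
      -∑ c ∈ range h, s c * pre s (2 * c + 1) := by
    rw [two_mul, Finset.sum_range_add]
    have e1 : ∑ b ∈ range h, s b * pre s (b - min b (h + h - 1 - b)) = 0 := by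
      refine Finset.sum_eq_zero fun b hb => ?_
      rw [Finset.mem_range] at hb
      rw [show b - min b (h + h - 1 - b) = 0 by omega, pre_zero, mul_zero]
    rw [e1, zero_add, ← Finset.sum_neg_distrib]
    rw [← Finset.sum_range_reflect (fun c => -(s c * pre s (2 * c + 1))) h]
    refine Finset.sum_congr rfl fun c hc => ?_
    rw [Finset.mem_range] at hc
    have e2 := ha (h - 1 - c) (by omega)
    rw [show 2 * h - 1 - (h - 1 - c) = h + c by omega] at e2
    have e3 := pre_symm ha (2 * c + 1) (by omega)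
    rw [show 2 * h - (2 * c + 1) = 2 * (h - 1 - c) + 1 by omega] at e3
    rw [e2, e3, show h + c - min (h + c) (h + h - 1 - (h + c)) = 2 * c + 1 by omega]
    ring
  have h5 := sum_pre s (2 * h)
  rw [pre_top ha] at h5
  have h6 : ∑ b ∈ range (2 * h), s b * s b = 2 * h := by
    rw [Finset.sum_congr rfl fun b hb => hs b (Finset.mem_range.1 hb)]
    simp
  rw [h1, h2, h3]
  simp only [mul_sub, Finset.sum_sub_distrib]
  rw [h4]
  linarith

theorem T13 (he : (∑ i ∈ range h, s (2 * i)) ^ 2 = h) (ho : (∑ i ∈ range h, s (2 * i + 1)) ^ 2 = h)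
    (hs : ∀ i < 2 * h, s i * s i = 1) : T h (fun a d => s a * s (a + 2 * d)) = 0 := by
  have h1 : T h (fun a d => s a * s (a + 2 * d)) =
      ∑ d ∈ Ico 1 h, ∑ i ∈ range (h - d), s (2 * i) * s (2 * (i + d)) +
      ∑ d ∈ Ico 1 h, ∑ i ∈ range (h - d), s (2 * i + 1) * s (2 * (i + d) + 1) := by
    unfold T
    rw [← Finset.sum_add_distrib]
    refine Finset.sum_congr rfl fun d _ => ?_
    rw [← Finset.sum_add_distrib, ← Nat.mul_sub, sum_two_mul]
    refine Finset.sum_congr rfl fun i _ => ?_
    beta_reduce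
    rw [show 2 * i + 2 * d = 2 * (i + d) by ring,
      show 2 * i + 1 + 2 * d = 2 * (i + d) + 1 by ring]
  have h2 := sq_sum (fun i => s (2 * i)) h
  have h3 := sq_sum (fun i => s (2 * i + 1)) h
  have h4 : ∑ i ∈ range h, s (2 * i) * s (2 * i) = h := by
    rw [Finset.sum_congr rfl fun b hb => hs (2 * b) (by
      have := Finset.mem_range.1 hb
      omega)]
    simp
  have h5 : ∑ i ∈ range h, s (2 * i + 1) * s (2 * i + 1) = h := by
    rw [Finset.sum_congr rfl fun b hb => hs (2 * b + 1) (by
      have := Finset.mem_range.1 hb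
      omega)]
    simp
  rw [h1]
  linarith

theorem T1 (hc : ∑ e ∈ Ico 1 h, pre s (2 * e) = 0) : T h (fun a _ => s a) = 0 := by
  unfold T
  rw [← hc, ← sum_sub_refl (fun e => pre s (2 * e)) h]
  refine Finset.sum_congr rfl fun d _ => ?_
  unfold pre
  rw [Nat.mul_sub]

/-- all seven correlations vanish -/
theorem all_vanish (ha : ∀ i < 2 * h, s (2 * h - 1 - i) = -s i) (hs : ∀ i < 2 * h, s i * s i = 1)
    (h1 : ∑ e ∈ Ico 1 h, pre s (2 * e) = 0)
    (he : (∑ i ∈ range h, s (2 * i)) ^ 2 = h) (ho : (∑ i ∈ range h, s (2 * i + 1)) ^ 2 = h)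
    (hc : ∑ c ∈ range h, s c * pre s (2 * c + 1) = h) (u v w : ℤ) :
    T h (fun a d => (1 + u * s a) * (1 + v * s (a + d)) * (1 + w * s (a + 2 * d))) =
      T h (fun _ _ => 1) := by
  have a1 := T1 h1
  have a12 := T12 ha hs hc
  have a13 := T13 he ho hs
  have a3 : T h (fun a d => s (a + 2 * d)) = 0 := by
    have e : T h (fun a d => s (a + 2 * d)) = -T h (fun a _ => s a) := by
      rw [← T_neg, T_refl]
      refine T_congr fun d a hd hdh had => ?_
      rw [← ha a (by omega)]
      congr 1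
      omega
    rw [e, a1, neg_zero]
  have a2 : T h (fun a d => s (a + d)) = 0 := by
    have e : T h (fun a d => s (a + d)) = -T h (fun a d => s (a + d)) := by
      conv_lhs => rw [T_refl]
      rw [← T_neg]
      refine T_congr fun d a hd hdh had => ?_
      rw [← ha (a + d) (by omega)]
      congr 1
      omega
    linarith
  have a23 : T h (fun a d => s (a + d) * s (a + 2 * d)) = 0 := by
    have e : T h (fun a d => s (a + d) * s (a + 2 * d)) = T h (fun a d => s a * s (a + d)) := by
      rw [T_refl]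
      refine T_congr fun d a hd hdh had => ?_
      have e1 := ha (a + d) (by omega)
      have e2 := ha a (by omega)
      rw [show 2 * h - 2 * d - 1 - a + d = 2 * h - 1 - (a + d) by omega,
        show 2 * h - 2 * d - 1 - a + 2 * d = 2 * h - 1 - a by omega, e1, e2]
      ring
    rw [e, a12]
  have a123 : T h (fun a d => s a * s (a + d) * s (a + 2 * d)) = 0 := by
    have e : T h (fun a d => s a * s (a + d) * s (a + 2 * d)) =
        -T h (fun a d => s a * s (a + d) * s (a + 2 * d)) := by
      conv_lhs => rw [T_refl]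
      rw [← T_neg]
      refine T_congr fun d a hd hdh had => ?_
      have e1 := ha (a + d) (by omega)
      have e2 := ha a (by omega)
      have e3 := ha (a + 2 * d) (by omega)
      rw [show 2 * h - 1 - (a + 2 * d) = 2 * h - 2 * d - 1 - a by omega] at e3
      rw [show 2 * h - 2 * d - 1 - a + d = 2 * h - 1 - (a + d) by omega,
        show 2 * h - 2 * d - 1 - a + 2 * d = 2 * h - 1 - a by omega, e1, e2, e3]
      ring
    linarith
  have key : (fun a d => (1 + u * s a) * (1 + v * s (a + d)) * (1 + w * s (a + 2 * d))) =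
      (fun a d => 1 + (u * s a + (v * s (a + d) + (w * s (a + 2 * d) +
        ((u * v) * (s a * s (a + d)) + ((u * w) * (s a * s (a + 2 * d)) +
        ((v * w) * (s (a + d) * s (a + 2 * d)) +
          (u * v * w) * (s a * s (a + d) * s (a + 2 * d))))))))) := by
    funext a d
    ring
  rw [key]
  simp only [T_add, T_mul, a1, a2, a3, a12, a13, a23, a123]
  ring

end Pool.Agent.H15AP
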